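import Mathlib
import Pool.Agent.H25.GM.Final

set_option autoImplicit false
set_option linter.unusedSectionVars false
set_option linter.unusedVariables false
set_option linter.deprecated false

open MeasureTheory MeasureTheory.Measure Set Filter Topology
open scoped ENNReal NNReal

namespace Pool.Agent.Results.MP_ccb05f_an.NotLscGraph

/-- The closed unit cube of the Euclidean space of dimension `d`. -/
def Cube (d : ℕ) : Set (EuclideanSpace ℝ (Fin d)) := {x | ∀ i, 0 ≤ x i ∧ x i ≤ 1}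

/-- The graph of a homeomorphism of the cube onto itself, as a subset of the Euclidean space of
dimension `2 d`: the set of the points `(x, f x)`. -/
def graph {d : ℕ} (f : Cube d ≃ₜ Cube d) : Set (EuclideanSpace ℝ (Fin d ⊕ Fin d)) :=
  {p | ∃ x : Cube d, ∀ i, p (Sum.inl i) = (x : EuclideanSpace ℝ (Fin d)) i ∧
    p (Sum.inr i) = (f x : EuclideanSpace ℝ (Fin d)) i}

open Pool.Agent.H25.GM in
/-- transport of a homeomorphism preserving the cube -/
noncomputable def toCube {d : ℕ} (F : (Fin d → ℝ) ≃ₜ (Fin d → ℝ))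
    (hF : ∀ x, F x ∈ Q (Fin d) ↔ x ∈ Q (Fin d)) : Cube d ≃ₜ Cube d :=
  Homeomorph.subtype
    (((PiLp.homeomorph 2 (fun _ : Fin d => ℝ)).trans F).trans
      (PiLp.homeomorph 2 (fun _ : Fin d => ℝ)).symm)
    (fun x => by
      have h1 : x ∈ Cube d ↔ WithLp.ofLp x ∈ Q (Fin d) := by
        unfold Cube Q
        simp only [mem_setOf_eq, mem_Icc, Pi.le_def, Pi.zero_apply, Pi.one_apply]
        exact forall_and
      have h2 : (((PiLp.homeomorph 2 (fun _ : Fin d => ℝ)).trans F).trans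
          (PiLp.homeomorph 2 (fun _ : Fin d => ℝ)).symm) x ∈ Cube d ↔
          F (WithLp.ofLp x) ∈ Q (Fin d) := by
        unfold Cube Q
        simp only [mem_setOf_eq, mem_Icc, Pi.le_def, Pi.zero_apply, Pi.one_apply]
        exact forall_and
      rw [h1, h2, hF])

open Pool.Agent.H25.GM in
lemma toCube_apply {d : ℕ} (F : (Fin d → ℝ) ≃ₜ (Fin d → ℝ))
    (hF : ∀ x, F x ∈ Q (Fin d) ↔ x ∈ Q (Fin d)) (x : Cube d) :
    ((toCube F hF x : Cube d) : EuclideanSpace ℝ (Fin d)) =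
      WithLp.toLp 2 (F (WithLp.ofLp (x : EuclideanSpace ℝ (Fin d)))) := rfl

open Pool.Agent.H25.GM in
lemma graph_toCube {d : ℕ} (F : (Fin d → ℝ) ≃ₜ (Fin d → ℝ))
    (hF : ∀ x, F x ∈ Q (Fin d) ↔ x ∈ Q (Fin d)) : graph (toCube F hF) = J '' Gr F := by
  ext p
  simp only [graph, mem_setOf_eq, mem_image, Gr]
  constructor
  · rintro ⟨x, hx⟩
    refine ⟨(WithLp.ofLp (x : EuclideanSpace ℝ (Fin d)), F (WithLp.ofLp (x : EuclideanSpace ℝ (Fin d)))),
      ⟨⟨fun i => (x.2 i).1, fun i => (x.2 i).2⟩, rfl⟩, ?_⟩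
    ext i
    rcases i with i | i
    · exact ((hx i).1).symm
    · exact ((hx i).2).symm
  · rintro ⟨⟨x, y⟩, ⟨h1, h2⟩, rfl⟩
    simp only at h1 h2
    refine ⟨⟨WithLp.toLp 2 x, fun i => ⟨h1.1 i, h1.2 i⟩⟩, fun i => ⟨rfl, ?_⟩⟩
    rw [toCube_apply, h2]
    rfl

open Pool.Agent.H25.GM in
/-- For every `d ≥ 4` the function `f ↦ H^d(graph f)` on the homeomorphisms of the `d`-dimensional
cube, with the topology of uniform convergence, is not lower semicontinuous. -/
theorem result (d : ℕ) (hd : 4 ≤ d) :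
    ∃ (c : ℝ≥0) (f : Cube d ≃ₜ Cube d), (c : ℝ≥0∞) < μH[(d : ℝ)] (graph f) ∧
      ∀ ε : ℝ, 0 < ε → ∃ g : Cube d ≃ₜ Cube d, (∀ x, dist (f x) (g x) < ε) ∧
        μH[(d : ℝ)] (graph g) ≤ (c : ℝ≥0∞) := by
  obtain ⟨c, F, f, hF, hf, hdist, h1, h2⟩ := main_meas (Fin.castLE hd) (Fin.castLE_injective hd)
  rw [Fintype.card_fin] at h1 h2
  refine ⟨c, toCube F hF, ?_, ?_⟩
  · rw [graph_toCube]; exact h1
  · intro ε hε
    set K : ℝ≥0 := (Fintype.card (Fin d) : ℝ≥0) ^ (1 / (2 : ℝ≥0∞)).toReal with hK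
    have hL : LipschitzWith K (WithLp.toLp 2 : (Fin d → ℝ) → EuclideanSpace ℝ (Fin d)) :=
      PiLp.lipschitzWith_toLp 2 (fun _ : Fin d => ℝ)
    have ht : Tendsto (fun n : ℕ => (K : ℝ) * (2 * (1 / 2 : ℝ) ^ n)) atTop (𝓝 0) := by
      have := ((tendsto_pow_atTop_nhds_zero_of_lt_one (r := (1 / 2 : ℝ)) (by norm_num)
        (by norm_num)).const_mul 2).const_mul (K : ℝ)
      rwa [mul_zero, mul_zero] at this
    obtain ⟨n, hn, hn1⟩ := ((ht.eventually (gt_mem_nhds hε)).and (eventually_ge_atTop 1)).exists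
    refine ⟨toCube (f n) (hf n), fun x => ?_, ?_⟩
    · rw [Subtype.dist_eq, toCube_apply, toCube_apply]
      refine lt_of_le_of_lt ((hL.dist_le_mul _ _).trans ?_) hn
      rw [dist_comm]
      gcongr
      exact hdist n _
    · rw [graph_toCube]
      exact h2 n hn1

end Pool.Agent.Results.MP_ccb05f_an.NotLscGraph
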